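import Pool.Agent.Helper95.RK.GoalsC
import Pool.Agent.Helper95.RK.Basics
import Pool.Agent.Helper86.SP.ACB

/-! # Packets RK ACBK and LIPPK: a priori bounds -/

set_option autoImplicit false

open Complex Metric Set Filter Topology MeasureTheory
open scoped ContDiff ComplexConjugate ComplexOrder Manifold Matrix

namespace Pool.Agent.Helper61.RK

open Pool.Agent.Helper95.Lin Pool.Agent.Helper16.Abund Pool.Agent.Helper92.Orb
open Pool.Agent.Helper10.SP Pool.Agent.Helper95.RK Pool.Agent.Helper86.SP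

theorem hermi_posK {n : ℕ} {M : Matrix (Fin n) (Fin n) ℂ} (hM : M.PosDef) {u : Cn n}
    (hu : u ≠ 0) : 0 < (hermi M u u).re := by
  have h1 : hermi M u u = star (star u) ⬝ᵥ (M.mulVec (star u)) := by
    unfold hermi dotProduct Matrix.mulVec dotProduct
    refine Finset.sum_congr rfl fun i _ => ?_
    rw [Finset.mul_sum]
    refine Finset.sum_congr rfl fun j _ => ?_
    simp only [Pi.star_apply, RCLike.star_def, RingHomCompTriple.comp_apply, RingHom.id_apply]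
    ring
  have h2 : star u ≠ 0 := by
    intro h
    exact hu (by simpa using h)
  have h3 := hM.dotProduct_mulVec_pos h2
  rw [← h1] at h3
  exact (Complex.pos_iff.1 h3).1

theorem differentiableOn_det {b k : ℕ} {V : Set (Cn b)} {A : Cn b → Matrix (Fin k) (Fin k) ℂ}
    (hA : ∀ i j, DifferentiableOn ℂ (fun z => A z i j) V) :
    DifferentiableOn ℂ (fun z => (A z).det) V := by
  simp only [Matrix.det_apply']
  refine DifferentiableOn.fun_sum fun σ _ => ?_
  refine DifferentiableOn.const_mul ?_ _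
  have h : ∀ s : Finset (Fin k), DifferentiableOn ℂ (fun z => ∏ i ∈ s, A z (σ i) i) V := by
    intro s
    classical
    induction s using Finset.induction_on with
    | empty => simp only [Finset.prod_empty]; exact differentiableOn_const _
    | insert a s ha ih =>
      simp only [Finset.prod_insert ha]
      exact (hA _ _).mul ih
  exact h Finset.univ

/-- Two sided bounds of the leaf metric on a compact set. -/
theorem hf_bd {b k : ℕ} {U K : Set (Cn b)} {Hf : Cn b → Matrix (Fin k) (Fin k) ℂ}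
    (hK : IsCompact K) (hKU : K ⊆ U) (hH : ∀ i j, ContinuousOn (fun z => Hf z i j) U)
    (hpos : ∀ z ∈ U, (Hf z).PosDef) :
    ∃ c C : ℝ, 0 < c ∧ 0 < C ∧ ∀ z ∈ K, ∀ e : Cn k, c * ‖e‖ ^ 2 ≤ (hermi (Hf z) e e).re ∧
      (hermi (Hf z) e e).re ≤ C * ‖e‖ ^ 2 := by
  have hS : IsCompact (K ×ˢ sphere (0 : Cn k) 1) := hK.prod (isCompact_sphere _ _)
  have hf : ContinuousOn (fun p : Cn b × Cn k => (hermi (Hf p.1) p.2 p.2).re)
      (K ×ˢ sphere (0 : Cn k) 1) := by
    have hv : ∀ i, Continuous fun p : Cn b × Cn k => p.2 i := by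
      intro i
      exact (continuous_apply i).comp continuous_snd
    have h3 : ∀ i j, ContinuousOn (fun p : Cn b × Cn k => Hf p.1 i j)
        (K ×ˢ sphere (0 : Cn k) 1) := fun i j =>
      ((hH i j).mono hKU).comp continuousOn_fst (fun p hp => hp.1)
    have h4 : ∀ i j, ContinuousOn (fun p : Cn b × Cn k =>
        Hf p.1 i j * p.2 i * conj (p.2 j)) (K ×ˢ sphere (0 : Cn k) 1) := by
      intro i j
      have h5 : Continuous fun p : Cn b × Cn k => conj (p.2 j) :=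
        Complex.continuous_conj.comp (hv j)
      exact ((h3 i j).mul (hv i).continuousOn).mul h5.continuousOn
    have h6 : ContinuousOn (fun p : Cn b × Cn k => hermi (Hf p.1) p.2 p.2)
        (K ×ˢ sphere (0 : Cn k) 1) := by
      have h7 : ∀ i, ContinuousOn (fun p : Cn b × Cn k =>
        ∑ j, Hf p.1 i j * p.2 i * conj (p.2 j))
        (K ×ˢ sphere (0 : Cn k) 1) := fun i => continuousOn_finsetSum _ fun j _ => h4 i j
      exact continuousOn_finsetSum _ fun i _ => h7 i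
    exact Complex.continuous_re.comp_continuousOn h6
  obtain ⟨c, C, hc0, hC0, hcb⟩ : ∃ c C : ℝ, 0 < c ∧ 0 < C ∧ ∀ x ∈ K,
      ∀ u ∈ sphere (0 : Cn k) 1, c ≤ (hermi (Hf x) u u).re ∧ (hermi (Hf x) u u).re ≤ C := by
    rcases (K ×ˢ sphere (0 : Cn k) 1).eq_empty_or_nonempty with h | h
    · refine ⟨1, 1, one_pos, one_pos, fun x hx u hu => ?_⟩
      exact absurd (mk_mem_prod hx hu) (by rw [h]; exact notMem_empty _)
    · obtain ⟨p, hp1, hp2⟩ := hS.exists_isMinOn h hf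
      obtain ⟨q, hq1, hq2⟩ := hS.exists_isMaxOn h hf
      have hne : p.2 ≠ 0 := by
        intro h0
        have h2 : ‖p.2‖ = 1 := by simpa using hp1.2
        rw [h0, norm_zero] at h2
        exact zero_ne_one h2
      have hp3 : ∀ x ∈ K, ∀ u ∈ sphere (0 : Cn k) 1,
          (hermi (Hf p.1) p.2 p.2).re ≤ (hermi (Hf x) u u).re := by
        intro x hx u hu
        have h6 := (isMinOn_iff.1 hp2) (x, u) (mk_mem_prod hx hu)
        exact h6
      have hq3 : ∀ x ∈ K, ∀ u ∈ sphere (0 : Cn k) 1,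
          (hermi (Hf x) u u).re ≤ (hermi (Hf q.1) q.2 q.2).re := by
        intro x hx u hu
        have h6 := (isMaxOn_iff.1 hq2) (x, u) (mk_mem_prod hx hu)
        exact h6
      have hpp : 0 < (hermi (Hf p.1) p.2 p.2).re := hermi_posK (hpos _ (hKU hp1.1)) hne
      exact ⟨(hermi (Hf p.1) p.2 p.2).re, (hermi (Hf q.1) q.2 q.2).re, hpp,
        lt_of_lt_of_le hpp (hp3 _ hq1.1 _ hq1.2), fun x hx u hu => ⟨hp3 x hx u hu, hq3 x hx u hu⟩⟩
  refine ⟨c, C, hc0, hC0, fun x hx u => ?_⟩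
  rcases eq_or_ne u 0 with rfl | hu
  · simp [hermi]
  · have hu' : 0 < ‖u‖ := norm_pos_iff.2 hu
    set u1 : Cn k := ((‖u‖⁻¹ : ℝ) : ℂ) • u with hu1
    have h1 : ‖u1‖ = 1 := by
      rw [hu1, norm_smul, Complex.norm_real, norm_inv, norm_norm, inv_mul_cancel₀ hu'.ne']
    have h2 : u = ((‖u‖ : ℝ) : ℂ) • u1 := by
      rw [hu1, smul_smul, ← Complex.ofReal_mul, mul_inv_cancel₀ hu'.ne', Complex.ofReal_one,
        one_smul]
    have h6 : (hermi (Hf x) u u).re = ‖u‖ ^ 2 * (hermi (Hf x) u1 u1).re := by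
      conv_lhs => rw [h2, hermi_smul']
      rw [Complex.re_ofReal_mul]
    obtain ⟨h4, h5⟩ := hcb x hx u1 (by simpa using h1)
    rw [h6]
    constructor
    · nlinarith [sq_nonneg ‖u‖]
    · nlinarith [sq_nonneg ‖u‖]

/-- The Levi form is preserved. -/
theorem lev_idK {b k : ℕ} (hW : S_WCH) {U' V : Set (Cn b)} {Ψ Ψ' : Cn b → ℝ}
    {Hf Hf' : Cn b → Matrix (Fin k) (Fin k) ℂ} {t : TriK b k}
    (hU' : IsOpen U') (hV : IsOpen V) (hΨ' : ContDiffOn ℝ ∞ Ψ' U') (ht : t.HolOn V)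
    (hm : MapsTo t.g V U') (hP : ∀ z ∈ V, PotRK Ψ Ψ' Hf Hf' t z) {z : Cn b} (hz : z ∈ V)
    (e : Cn b) : lev Ψ z e = lev Ψ' (t.g z) (fderiv ℂ t.g z e) := by
  have hd := Pool.Agent.Helper10.Abund.differentiableOn_det_fderiv hV ht.1
  obtain ⟨s1, k1⟩ := hW.2 V hV (fun y => (fderiv ℂ t.g y).det) hd (fun x hx => (hP x hx).detg)
  obtain ⟨s2, k2⟩ := hW.2 V hV (fun y => (t.A y).det) (differentiableOn_det ht.2.1)
    (fun x hx => (hP x hx).detA)
  have hg : ContDiffOn ℝ ∞ t.g V := holo_contDiffOn_real hV ht.1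
  have s0 : ContDiffOn ℝ ∞ (Ψ' ∘ t.g) V := hΨ'.comp hg hm
  have he : Ψ =ᶠ[𝓝 z] fun y => (Ψ' ∘ t.g) y + (Real.log (‖(fderiv ℂ t.g y).det‖ ^ 2) +
      Real.log (‖(t.A y).det‖ ^ 2)) := by
    filter_upwards [hV.mem_nhds hz] with y hy
    rw [(hP y hy).pot]
    simp only [Function.comp]
    ring
  rw [lev_congr he, lev_add hV s0 (s1.add s2) hz, lev_add hV s1 s2 hz, (k1 z hz).1, (k2 z hz).1,
    (hW.1 U' V hU' hV t.g ht.1 hm).2 Ψ' hΨ' z hz |>.1 e]
  ring

/-- ACBK. A priori bounds. -/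
theorem acbk (hWCH : S_WCH) (hLMF : S_LMF) : S_ACBK := by
  intro b k U U' K K' Ψ Ψ' Hf Hf' hU hU' hK hKU hK' hKU' hΨ hΨ' hp hp' hH hH' hq hq'
  obtain ⟨c, D, hc, hD, h1⟩ := lev_bd hLMF hU hK hKU hΨ hp
  obtain ⟨c', D', hc', hD', h1'⟩ := lev_bd hLMF hU' hK' hKU' hΨ' hp'
  obtain ⟨a, A, ha, hA, h2⟩ := hf_bd hK hKU hH hq
  obtain ⟨a', A', ha', hA', h2'⟩ := hf_bd hK' hKU' hH' hq'
  set C1 := √(D / c') with hC1
  set C2 := √(D' / c) with hC2
  set C3 := √(A / a') with hC3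
  set C4 := √(A' / a) with hC4
  have hC1' : 0 ≤ C1 := Real.sqrt_nonneg _
  have hC2' : 0 ≤ C2 := Real.sqrt_nonneg _
  have hC3' : 0 ≤ C3 := Real.sqrt_nonneg _
  have hC4' : 0 ≤ C4 := Real.sqrt_nonneg _
  refine ⟨1 + C1 + C2 + C3 + C4, by linarith, ?_⟩
  intro V t hV hVU ht hm hP z hz hzK hgz
  have hid := lev_idK hWCH hU' hV hΨ' ht hm hP hz
  set J := fderiv ℂ t.g z with hJ
  have hup : ∀ e, ‖J e‖ ≤ C1 * ‖e‖ := by
    intro e
    apply sq_bd hc' hD (norm_nonneg _) (norm_nonneg _)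
    have h3 := (h1 z hzK e).2
    rw [hid e] at h3
    exact ((h1' _ hgz (J e)).1).trans h3
  have hlo : ∀ e, ‖e‖ ≤ C2 * ‖J e‖ := by
    intro e
    apply sq_bd hc hD' (norm_nonneg _) (norm_nonneg _)
    have h3 := (h1 z hzK e).1
    rw [hid e] at h3
    exact h3.trans (h1' _ hgz (J e)).2
  have hA1 : ∀ u, ‖t.A z *ᵥ u‖ ≤ C3 * ‖u‖ := by
    intro u
    apply sq_bd ha' hA (norm_nonneg _) (norm_nonneg _)
    have h3 := (h2' _ hgz (t.A z *ᵥ u)).1
    rw [(hP z hz).herm u u] at h3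
    exact h3.trans (h2 z hzK u).2
  have hA2 : ∀ u, ‖u‖ ≤ C4 * ‖t.A z *ᵥ u‖ := by
    intro u
    apply sq_bd ha hA' (norm_nonneg _) (norm_nonneg _)
    have h3 := (h2' _ hgz (t.A z *ᵥ u)).2
    rw [(hP z hz).herm u u] at h3
    exact (h2 z hzK u).1.trans h3
  refine ⟨fun v => (hA1 v).trans (mul_le_mul_of_nonneg_right (by linarith) (norm_nonneg _)),
    fun v => ?_, fun e => ⟨(hup e).trans (mul_le_mul_of_nonneg_right (by linarith) (norm_nonneg _)),
      (hlo e).trans (mul_le_mul_of_nonneg_right (by linarith) (norm_nonneg _))⟩⟩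
  have h4 := hA2 ((t.A z)⁻¹ *ᵥ v)
  rw [Matrix.mulVec_mulVec, Matrix.mul_nonsing_inv _ (isUnit_iff_ne_zero.2 (hP z hz).detA),
    Matrix.one_mulVec] at h4
  exact h4.trans (mul_le_mul_of_nonneg_right (by linarith) (norm_nonneg _))

/-- LIPPK. Lipschitz bound. -/
theorem lippk (hACB : S_ACBK) : S_LIPPK := by
  intro b k N c R r Φ Hf hrR hΦ hpos hH hq
  have hO : IsOpen (Bd c R) := isOpen_iUnion fun _ => isOpen_ball
  have hKc : IsCompact (⋃ i, closedBall (c i) r) :=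
    isCompact_iUnion fun i => isCompact_closedBall (c i) r
  have hKU : (⋃ i, closedBall (c i) r) ⊆ Bd c R := by
    refine iUnion_mono fun i => ?_
    exact closedBall_subset_ball hrR
  have hrK : Bd c r ⊆ ⋃ i, closedBall (c i) r := iUnion_mono fun i => ball_subset_closedBall
  obtain ⟨C, hC1, hC⟩ := hACB (Bd c R) (Bd c R) _ _ Φ Φ Hf Hf hO hO hKc hKU hKc hKU hΦ hΦ hpos
    hpos hH hH hq hq
  refine ⟨C, hC1, fun V t hVo hVc hVr ht hmap hpot => ?_⟩
  have hVR : V ⊆ Bd c R := hVr.trans (hrK.trans hKU)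
  have hmapR : MapsTo t.g V (Bd c R) := fun z hz => hKU (hrK (hmap hz))
  have key := hC V t hVo hVR ht hmapR hpot
  refine ⟨fun z hz => ?_, fun x hx y hy => ?_⟩
  · obtain ⟨h1, h2, _⟩ := key z hz (hrK (hVr hz)) (hrK (hmap hz))
    exact ⟨h1, h2⟩
  · have h1 := Convex.norm_image_sub_le_of_norm_fderiv_le (𝕜 := ℂ) (f := t.g) (C := C)
      (s := V) (x := y) (y := x)
      (fun z hz => (ht.1 z hz).differentiableAt (hVo.mem_nhds hz))
      (fun z hz => ?_) hVc hy hx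
    · exact h1
    · refine ContinuousLinearMap.opNorm_le_bound _ (by linarith) fun e => ?_
      exact ((key z hz (hrK (hVr hz)) (hrK (hmap hz))).2.2 e).1

end Pool.Agent.Helper61.RK
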