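import Pool.Agent.Helper95.RK.GoalsC
import Pool.Agent.Helper40.SP.STR

/-! # Packet RK FLOW: holomorphic flows -/

set_option autoImplicit false

open Complex Metric Set Filter Topology
open scoped ContDiff

namespace Pool.Agent.Helper61.RK

open Pool.Agent.Helper95.Lin Pool.Agent.Helper16.Abund Pool.Agent.Helper10.SP
open Pool.Agent.Helper40.SP Pool.Agent.Helper95.RK

theorem pt_eqL {n : ℕ} (y : Cn n) (t : ℂ) : pt y t = pt y 0 + t • ew n := by
  ext j
  refine Fin.addCases (fun j => ?_) (fun j => ?_) j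
  · have := congrFun (base_ew n) j
    simp only [base, Pi.zero_apply] at this
    simp [pt, this]
  · obtain rfl : j = 0 := Subsingleton.elim _ _
    have := lc_ew n
    simp only [lc] at this
    simp [pt, this]

theorem flow_cn {n : ℕ} {W : Set (Cn n)} {ξ : Cn n → Cn n} (hW : IsOpen W)
    (hξ : DifferentiableOn ℂ ξ W) {p : Cn n} (hp : p ∈ W) :
    ∃ r > 0, ∃ σ : Cn (n + 1) → Cn n, DifferentiableOn ℂ σ (prodS (ball p r) (ball 0 r)) ∧
      (∀ y ∈ ball p r, σ (pt y 0) = y) ∧ ∀ x ∈ prodS (ball p r) (ball 0 r), σ x ∈ W ∧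
        fderiv ℂ σ x (ew n) = ξ (σ x) := by
  -- the ball
  obtain ⟨R, hR, hRW⟩ := Metric.nhds_basis_closedBall.mem_iff.1 (hW.mem_nhds hp)
  have hbW : ball p R ⊆ W := ball_subset_closedBall.trans hRW
  have hcomp : IsCompact (closedBall p R) := isCompact_closedBall p R
  obtain ⟨A, hA'⟩ := hcomp.exists_bound_of_continuousOn (hξ.continuousOn.mono hRW)
  have hA : 0 ≤ A := (norm_nonneg _).trans (hA' p (mem_closedBall_self hR.le))
  obtain ⟨L, hL'⟩ := hcomp.exists_bound_of_continuousOn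
    ((holo_fderiv hW hξ).continuousOn.mono hRW)
  have hL : 0 ≤ L := (norm_nonneg _).trans (hL' p (mem_closedBall_self hR.le))
  have hb : ∀ y ∈ ball p R, ‖ξ y‖ ≤ A := fun y hy => hA' y (ball_subset_closedBall hy)
  have hl : ∀ y ∈ ball p R, ∀ z ∈ ball p R, ‖ξ y - ξ z‖ ≤ L * ‖y - z‖ := by
    intro y hy z hz
    refine Convex.norm_image_sub_le_of_norm_fderiv_le (𝕜 := ℂ) (f := ξ) (s := ball p R) ?_ ?_
      (convex_ball p R) hz hy
    · intro x hx
      exact hξ.differentiableAt (hW.mem_nhds (hbW hx))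
    · intro x hx
      exact hL' x (ball_subset_closedBall hx)
  -- real time solutions
  obtain ⟨δ₀, hδ₀, hsol⟩ := Pool.Agent.Helper3.Lin.PLU (m := 1) (ball p R) isOpen_ball
    (fun _ => ξ) (fun _ => hξ.mono hbW) (closedBall p (R / 2))
    (closedBall_subset_ball (by linarith)) (isCompact_closedBall _ _)
  obtain ⟨T, hT0, hTδ, hTA⟩ : ∃ T : ℝ, 0 < T ∧ T ≤ δ₀ ∧ T * A < R / 2 := by
    refine ⟨min δ₀ (R / (4 * (A + 1))), lt_min hδ₀ (by positivity), min_le_left _ _, ?_⟩
    calc min δ₀ (R / (4 * (A + 1))) * A ≤ R / (4 * (A + 1)) * A := by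
          gcongr; exact min_le_right _ _
      _ = R / 4 * (A / (A + 1)) := by field_simp
      _ ≤ R / 4 * 1 := by
          have : A / (A + 1) ≤ 1 := by rw [div_le_one (by linarith)]; linarith
          gcongr
      _ < R / 2 := by linarith
  have hsol' : ∀ y ∈ ball p (R / 2), ∀ w : ℂ, ‖w‖ ≤ 1 →
      ∃ x, Sol (ball p R) (fun y => w • ξ y) y T x := by
    intro y hy w hw
    obtain ⟨x, hx0, hx⟩ := hsol (fun _ => w)
      ((pi_norm_le_iff_of_nonneg zero_le_one).2 fun _ => hw) y (ball_subset_closedBall hy)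
    refine ⟨x, hx0, fun t ht => ?_⟩
    have h1 := hx t ⟨ht.1, ht.2.trans hTδ⟩
    refine ⟨h1.1, ?_⟩
    have h2 := h1.2.mono (Icc_subset_Icc_right hTδ)
    simpa using h2
  obtain ⟨r, hr0, hrT, hrR⟩ : ∃ r : ℝ, 0 < r ∧ r ≤ T ∧ r ≤ R / 2 :=
    ⟨min T (R / 2), lt_min hT0 (by linarith), min_le_left _ _, min_le_right _ _⟩
  set Q : Set (Cn (n + 1)) := prodS (ball p r) (ball 0 r) with hQ
  have hQo : IsOpen Q := isOpen_prodS' isOpen_ball isOpen_ball
  have hx0mem : ∀ z ∈ ball p r, z ∈ ball p (R / 2) := fun z hz => ball_subset_ball hrR hz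
  -- the Euler approximations
  set E : ℕ → Cn (n + 1) → Cn n := fun N x =>
    eul ξ (lc x / ((N + 1 : ℕ) : ℂ)) (N + 1) (base x) with hE
  have hstep : ∀ N : ℕ, ∀ x ∈ Q, ((N + 1 : ℕ) : ℝ) * ‖lc x / ((N + 1 : ℕ) : ℂ)‖ * A < R / 2 := by
    intro N x hx
    have h1 : ‖lc x‖ < r := by have := hx.2; rwa [mem_ball_zero_iff] at this
    have h2 : ((N + 1 : ℕ) : ℝ) * ‖lc x / ((N + 1 : ℕ) : ℂ)‖ = ‖lc x‖ := by
      rw [norm_div, Complex.norm_natCast]
      have : ((N + 1 : ℕ) : ℝ) ≠ 0 := by positivity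
      field_simp
    rw [h2]
    refine lt_of_le_of_lt ?_ hTA
    exact mul_le_mul_of_nonneg_right (h1.le.trans hrT) hA
  have hEd : ∀ N, DifferentiableOn ℂ (E N) Q := by
    intro N
    have key : ∀ j ≤ N + 1, DifferentiableOn ℂ
        (fun x => eul ξ (lc x / ((N + 1 : ℕ) : ℂ)) j (base x)) Q := by
      intro j
      induction j with
      | zero =>
        intro _
        simp only [eul]
        have : Differentiable ℂ (fun x : Cn (n + 1) => baseL n x) := (baseL n).differentiable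
        exact this.differentiableOn
      | succ j ih =>
        intro hj
        have h1 := ih (by omega)
        simp only [eul]
        have h2 : DifferentiableOn ℂ (fun x : Cn (n + 1) => lc x / ((N + 1 : ℕ) : ℂ)) Q := by
          have h3 : (fun x : Cn (n + 1) => lc x / ((N + 1 : ℕ) : ℂ)) =
              fun x => ((((N + 1 : ℕ) : ℂ)⁻¹ • lcL n : Cn (n + 1) →L[ℂ] ℂ)) x := by
            funext x
            rw [_root_.smul_apply, lcL_apply, smul_eq_mul, div_eq_inv_mul]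
          rw [h3]
          exact (((N + 1 : ℕ) : ℂ)⁻¹ • lcL n).differentiable.differentiableOn
        refine h1.add (h2.smul ?_)
        refine hξ.comp h1 ?_
        intro x hx
        exact hbW (eul_mem hA hb (hx0mem _ hx.1) (hstep N x hx) j (by omega)).2
    exact key (N + 1) le_rfl
  -- the limit
  have hlim : ∀ x ∈ Q, ∀ w : ℂ, ‖w‖ ≤ 1 → ∀ s ∈ Icc (0 : ℝ) T, (s : ℂ) * w = lc x →
      ∀ X, Sol (ball p R) (fun y => w • ξ y) (base x) T X → ∀ N,
      ‖X s - E N x‖ ≤ A * T * Real.exp (L * T) / ((N + 1 : ℕ) : ℝ) := by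
    intro x hx w hw s hs hsw X hX N
    have := eul_conv hA hL hb hl hTA (hx0mem _ hx.1) hw hX hs (Nat.succ_pos N)
    rw [hsw] at this
    exact this
  have hdir : ∀ c : ℂ, ‖c‖ ≤ T → ∃ w : ℂ, ‖w‖ = 1 ∧ (‖c‖ : ℂ) * w = c := by
    intro c _
    rcases eq_or_ne c 0 with rfl | hc
    · exact ⟨1, by simp, by simp⟩
    · refine ⟨c / ‖c‖, ?_, ?_⟩
      · rw [norm_div, Complex.norm_real, norm_norm, div_self (norm_ne_zero_iff.2 hc)]
      · have : (‖c‖ : ℂ) ≠ 0 := by exact_mod_cast norm_ne_zero_iff.2 hc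
        field_simp
  have hex : ∀ x : Cn (n + 1), ∃ y, x ∈ Q → ∃ w : ℂ, ‖w‖ = 1 ∧ (‖lc x‖ : ℂ) * w = lc x ∧
      ∃ X, Sol (ball p R) (fun y => w • ξ y) (base x) T X ∧ y = X ‖lc x‖ := by
    intro x
    by_cases hx : x ∈ Q
    · have h1 : ‖lc x‖ < r := by have := hx.2; rwa [mem_ball_zero_iff] at this
      obtain ⟨w, hw, hw'⟩ := hdir (lc x) (h1.le.trans hrT)
      obtain ⟨X, hX⟩ := hsol' _ (hx0mem _ hx.1) w hw.le
      exact ⟨X ‖lc x‖, fun _ => ⟨w, hw, hw', X, hX, rfl⟩⟩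
    · exact ⟨0, fun h => absurd h hx⟩
  choose σ hσ using hex
  have hconst : Tendsto (fun N : ℕ => A * T * Real.exp (L * T) / ((N + 1 : ℕ) : ℝ)) atTop
      (𝓝 0) := by
    have := tendsto_const_div_atTop_nhds_zero_nat (A * T * Real.exp (L * T))
    exact this.comp (tendsto_add_atTop_nat 1)
  have hσE : ∀ x ∈ Q, ∀ N, ‖E N x - σ x‖ ≤ A * T * Real.exp (L * T) / ((N + 1 : ℕ) : ℝ) := by
    intro x hx N
    obtain ⟨w, hw, hw', X, hX, h1⟩ := hσ x hx
    have h2 : ‖lc x‖ < r := by have := hx.2; rwa [mem_ball_zero_iff] at this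
    have := hlim x hx w hw.le ‖lc x‖ ⟨norm_nonneg _, h2.le.trans hrT⟩ hw' X hX N
    rw [h1, norm_sub_rev]
    exact this
  have hσX : ∀ x ∈ Q, ∀ w : ℂ, ‖w‖ ≤ 1 → ∀ s ∈ Icc (0 : ℝ) T, (s : ℂ) * w = lc x →
      ∀ X, Sol (ball p R) (fun y => w • ξ y) (base x) T X → σ x = X s := by
    intro x hx w hw s hs hsw X hX
    have h1 : Tendsto (fun N => E N x) atTop (𝓝 (σ x)) := by
      rw [tendsto_iff_norm_sub_tendsto_zero]
      exact squeeze_zero (fun _ => norm_nonneg _) (hσE x hx) hconst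
    have h2 : Tendsto (fun N => E N x) atTop (𝓝 (X s)) := by
      rw [tendsto_iff_norm_sub_tendsto_zero]
      refine squeeze_zero (fun _ => norm_nonneg _) (fun N => ?_) hconst
      rw [norm_sub_rev]
      exact hlim x hx w hw s hs hsw X hX N
    exact tendsto_nhds_unique h1 h2
  have hσW : MapsTo σ Q (ball p R) := by
    intro x hx
    obtain ⟨w, hw, hw', X, hX, h1⟩ := hσ x hx
    have h2 : ‖lc x‖ < r := by have := hx.2; rwa [mem_ball_zero_iff] at this
    rw [h1]
    exact (hX.2 _ ⟨norm_nonneg _, h2.le.trans hrT⟩).1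
  have hσd : DifferentiableOn ℂ σ Q := by
    refine (Pool.Agent.Helper94.Lin.dlim Q hQo E σ hEd ?_).1
    intro K hK _ ε hε
    filter_upwards [hconst.eventually (gt_mem_nhds hε)] with N hN z hz
    exact (hσE z (hK hz) N).trans hN.le
  -- the differential equation
  have hode : ∀ x ∈ Q, fderiv ℂ σ x (ew n) = ξ (σ x) := by
    intro x hx
    have hx2 : ‖lc x‖ < r := by have := hx.2; rwa [mem_ball_zero_iff] at this
    obtain ⟨w, hw, hw'⟩ := hdir (lc x) (hx2.le.trans hrT)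
    obtain ⟨X, hX⟩ := hsol' _ (hx0mem _ hx.1) w hw.le
    have hs : ‖lc x‖ ∈ Ico (0 : ℝ) r := ⟨norm_nonneg _, hx2⟩
    have hsub : Ico (0 : ℝ) r ⊆ Icc 0 T := fun t ht => ⟨ht.1, ht.2.le.trans hrT⟩
    have hc : ∀ t ∈ Ico (0 : ℝ) r, pt (base x) ((t : ℂ) * w) ∈ Q := by
      intro t ht
      refine ⟨?_, ?_⟩
      · rw [base_pt]; exact hx.1
      · rw [lc_pt, mem_ball_zero_iff, norm_mul, hw, mul_one, Complex.norm_real,
          Real.norm_of_nonneg ht.1]
        exact ht.2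
    have heq : ∀ t ∈ Ico (0 : ℝ) r, σ (pt (base x) ((t : ℂ) * w)) = X t := by
      intro t ht
      refine hσX _ (hc t ht) w hw.le t (hsub ht) (lc_pt _ _).symm X ?_
      rw [base_pt]; exact hX
    have hxe : pt (base x) ((‖lc x‖ : ℂ) * w) = x := by rw [hw', pt_base_lc]
    have hd1 : HasDerivAt (fun t : ℝ => pt (base x) ((t : ℂ) * w)) (w • ew n) ‖lc x‖ := by
      have h3 : HasDerivAt (fun t : ℝ => (t : ℂ) * w) w ‖lc x‖ := by
        have h4 : HasDerivAt (fun t : ℝ => (t : ℂ)) 1 ‖lc x‖ := by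
          have := (hasDerivAt_id ‖lc x‖).ofReal_comp
          simpa using this
        simpa using h4.mul_const w
      have h5 := (h3.smul_const (ew n)).const_add (pt (base x) 0)
      exact h5.congr_of_eventuallyEq (Eventually.of_forall fun t => pt_eqL _ _)
    have hd2 : HasFDerivAt σ (fderiv ℂ σ x) (pt (base x) ((‖lc x‖ : ℂ) * w)) := by
      rw [hxe]
      exact (hσd.differentiableAt (hQo.mem_nhds hx)).hasFDerivAt
    have hd3 : HasDerivAt (fun t : ℝ => σ (pt (base x) ((t : ℂ) * w)))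
        (fderiv ℂ σ x (w • ew n)) ‖lc x‖ := by
      have := (hd2.restrictScalars ℝ).comp_hasDerivAt ‖lc x‖ hd1
      exact this
    have hd4 : HasDerivWithinAt X (fderiv ℂ σ x (w • ew n)) (Ico 0 r) ‖lc x‖ :=
      hd3.hasDerivWithinAt.congr (fun t ht => (heq t ht).symm) (heq _ hs).symm
    have hd5 : HasDerivWithinAt X (w • ξ (X ‖lc x‖)) (Ico 0 r) ‖lc x‖ :=
      (hX.2 _ (hsub hs)).2.mono hsub
    have hu : UniqueDiffWithinAt ℝ (Ico (0 : ℝ) r) ‖lc x‖ := uniqueDiffOn_Ico 0 r _ hs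
    have h6 := hu.eq_deriv _ hd4 hd5
    have h7 := heq _ hs
    rw [hxe] at h7
    rw [h7, map_smul] at *
    have hw0 : w ≠ 0 := by intro h; rw [h, norm_zero] at hw; exact zero_ne_one hw
    exact smul_right_injective _ hw0 h6
  -- the initial values
  have hini : ∀ z ∈ ball p r, σ (pt z 0) = z := by
    intro z hz
    obtain ⟨X, hX⟩ := hsol' _ (hx0mem _ hz) 1 (by simp)
    have hm : pt z 0 ∈ Q := by
      refine ⟨?_, ?_⟩
      · rw [base_pt]; exact hz
      · rw [lc_pt]; exact mem_ball_self hr0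
    have h1 := hσX (pt z 0) hm 1 (by simp) 0 ⟨le_rfl, hT0.le⟩ (by rw [lc_pt]; simp) X
      (by rw [base_pt]; exact hX)
    rw [h1, hX.1]
  exact ⟨r, hr0, σ, hσd, hini, fun x hx => ⟨hbW (hσW hx), hode x hx⟩⟩

/-- `(y, t) ↦ pt y t` as a linear map. -/
noncomputable def ptt (n : ℕ) : Cn n × ℂ →L[ℂ] Cn (n + 1) :=
  LinearMap.toContinuousLinearMap
    { toFun := fun p => pt p.1 p.2
      map_add' := by
        intro p q
        ext j
        refine Fin.addCases (fun j => ?_) (fun j => ?_) j <;> simp [pt]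
      map_smul' := by
        intro c p
        ext j
        refine Fin.addCases (fun j => ?_) (fun j => ?_) j <;> simp [pt] }

theorem ptt_apply {n : ℕ} (p : Cn n × ℂ) : ptt n p = pt p.1 p.2 := rfl

/-- FLOW. Holomorphic flows. -/
theorem flow : S_FLOW := by
  intro E _ _ _ W ξ hW hξ p hp
  obtain ⟨n, ⟨e⟩⟩ : ∃ n : ℕ, Nonempty (E ≃L[ℂ] Cn n) :=
    ⟨Module.finrank ℂ E, ⟨ContinuousLinearEquiv.ofFinrankEq (by simp)⟩⟩
  -- the field on `ℂⁿ`
  have hW' : IsOpen (e.symm ⁻¹' W) := hW.preimage e.symm.continuous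
  have hξ' : DifferentiableOn ℂ (fun y => e (ξ (e.symm y))) (e.symm ⁻¹' W) := by
    refine e.differentiable.comp_differentiableOn (hξ.comp e.symm.differentiable.differentiableOn ?_)
    exact fun y hy => hy
  obtain ⟨r, hr, σ, hσd, hσ0, hσ1⟩ := flow_cn hW' hξ' (p := e p) (by simpa using hp)
  obtain ⟨r', hr', hball⟩ : ∃ r' > 0, MapsTo e (ball p r') (ball (e p) r) :=
    Metric.continuousAt_iff'.1 e.continuous.continuousAt r hr |> fun h => by
      obtain ⟨r', hr', h'⟩ := Metric.eventually_nhds_iff_ball.1 h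
      exact ⟨r', hr', h'⟩
  have hQo : IsOpen (prodS (ball (e p) r) (ball (0 : ℂ) r)) := isOpen_prodS' isOpen_ball isOpen_ball
  have hmem : ∀ y ∈ ball p (min r r'), ∀ t ∈ ball (0 : ℂ) (min r r'),
      pt (e y) t ∈ prodS (ball (e p) r) (ball (0 : ℂ) r) := by
    intro y hy t ht
    refine ⟨?_, ?_⟩
    · rw [base_pt]
      exact hball (ball_subset_ball (min_le_right _ _) hy)
    · rw [lc_pt]
      exact ball_subset_ball (min_le_left _ _) ht
  refine ⟨min r r', lt_min hr hr', fun q => e.symm (σ (pt (e q.1) q.2)), ?_, ?_, ?_⟩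
  · refine e.symm.differentiable.comp_differentiableOn (hσd.comp ?_ ?_)
    · have h1 : Differentiable ℂ (fun q : E × ℂ => ptt n (e q.1, q.2)) :=
        (ptt n).differentiable.comp
          ((e.differentiable.comp differentiable_fst).prodMk differentiable_snd)
      exact h1.differentiableOn
    · intro q hq
      exact hmem q.1 hq.1 q.2 hq.2
  · intro y hy
    dsimp only
    rw [hσ0 _ (hball (ball_subset_ball (min_le_right _ _) hy)), e.symm_apply_apply]
  · intro y hy t ht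
    obtain ⟨h1, h2⟩ := hσ1 _ (hmem y hy t ht)
    refine ⟨h1, ?_⟩
    have h3 : HasDerivAt (fun s : ℂ => pt (e y) s) (ew n) t := by
      have h4 : HasDerivAt (fun s : ℂ => pt (e y) 0 + s • ew n) ((1 : ℂ) • ew n) t :=
        ((hasDerivAt_id t).smul_const (ew n)).const_add (pt (e y) 0)
      rw [one_smul] at h4
      exact h4.congr_of_eventuallyEq (Eventually.of_forall fun s => pt_eqL _ _)
    have h5 : HasFDerivAt σ (fderiv ℂ σ (pt (e y) t)) (pt (e y) t) :=
      (hσd.differentiableAt (hQo.mem_nhds (hmem y hy t ht))).hasFDerivAt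
    have h6 : HasDerivAt (fun s : ℂ => σ (pt (e y) s)) (fderiv ℂ σ (pt (e y) t) (ew n)) t :=
      h5.comp_hasDerivAt t h3
    rw [h2] at h6
    have h7 := (e.symm.hasFDerivAt (x := σ (pt (e y) t))).comp_hasDerivAt t h6
    have h8 : e.symm (e (ξ (e.symm (σ (pt (e y) t))))) = ξ (e.symm (σ (pt (e y) t))) :=
      e.symm_apply_apply _
    have h9 : HasDerivAt (fun s => e.symm (σ (pt (e y) s)))
        (e.symm (e (ξ (e.symm (σ (pt (e y) t)))))) t := h7
    rw [h8] at h9
    exact h9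

end Pool.Agent.Helper61.RK
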