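import Pool.Agent.Helper10.RK.GoalsH

set_option autoImplicit false

/-!
# RK, packet LIOUK: bounded pluriharmonic functions on `D × ℂᵏ` do not depend on the fibre variable
-/

open Complex Metric Set Filter Topology MeasureTheory
open scoped ContDiff ComplexConjugate ComplexOrder Manifold Matrix

namespace Pool.Agent.Helper61.RK

open Pool.Agent.Helper95.Lin Pool.Agent.Helper16.Abund Pool.Agent.Helper92.Orb
open Pool.Agent.Helper10.SP Pool.Agent.Helper95.RK Pool.Agent.Helper36.RK Pool.Agent.Helper10.RK

/-- The complex line through `w` and `w'` in the fibre. -/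
noncomputable def lineK {b k : ℕ} (w w' : Cn k) (x : Cn (b + 1)) : Cn (b + k) :=
  ptK (base x) (fun i => w i + lc x * (w' i - w i))

theorem base_lineK {b k : ℕ} (w w' : Cn k) (x : Cn (b + 1)) :
    base (lineK w w' x) = base x := by
  funext i
  simp [base, lineK, ptK]

theorem lineK_diff {b k : ℕ} (w w' : Cn k) :
    Differentiable ℂ (lineK w w' : Cn (b + 1) → Cn (b + k)) := by
  rw [differentiable_pi]
  intro i
  refine Fin.addCases (fun j => ?_) (fun j => ?_) i
  · have : (fun x : Cn (b + 1) => lineK w w' x (Fin.castAdd k j)) =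
        fun x => x (Fin.castAdd 1 j) := by
      funext x
      simp [lineK, ptK, base]
    rw [this]
    fun_prop
  · have : (fun x : Cn (b + 1) => lineK w w' x (Fin.natAdd b j)) =
        fun x => w j + x (Fin.natAdd b 0) * (w' j - w j) := by
      funext x
      simp [lineK, ptK, lc]
    rw [this]
    fun_prop

theorem lineK_smooth {b k : ℕ} (w w' : Cn k) :
    ContDiff ℝ ∞ (lineK w w' : Cn (b + 1) → Cn (b + k)) := by
  rw [contDiff_pi]
  intro i
  refine Fin.addCases (fun j => ?_) (fun j => ?_) i
  · have : (fun x : Cn (b + 1) => lineK w w' x (Fin.castAdd k j)) =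
        fun x => x (Fin.castAdd 1 j) := by
      funext x
      simp [lineK, ptK, base]
    rw [this]
    fun_prop
  · have : (fun x : Cn (b + 1) => lineK w w' x (Fin.natAdd b j)) =
        fun x => w j + x (Fin.natAdd b 0) * (w' j - w j) := by
      funext x
      simp [lineK, ptK, lc]
    rw [this]
    fun_prop

theorem liouk (hLIOU : S_LIOU) (hWCH : S_WCH) : S_LIOUK := by
  intro b k D hD u hu hlev hB z hz w w'
  obtain ⟨B, hB⟩ := hB
  have hopK : IsOpen (tubeK k D) := hD.preimage continuous_base
  have hopS : IsOpen (tubeS D) := hD.preimage continuous_base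
  have hmaps : MapsTo (lineK w w' : Cn (b + 1) → Cn (b + k)) (tubeS D) (tubeK k D) := by
    intro x hx
    change base (lineK w w' x) ∈ D
    rw [base_lineK]
    exact hx
  have hsm : ContDiff ℝ ∞ (lineK w w' : Cn (b + 1) → Cn (b + k)) :=
    lineK_smooth w w'
  have h1 := hLIOU D hD (u ∘ lineK w w') (hu.comp hsm.contDiffOn hmaps)
    (fun x hx e => by
      rw [((hWCH.1 (tubeK k D) (tubeS D) hopK hopS (lineK w w')
        (lineK_diff w w').differentiableOn hmaps).2 u hu x hx).1 e]
      exact hlev _ (hmaps hx) _)
    ⟨B, fun x hx => hB _ (hmaps hx)⟩ z hz 0 1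
  have e : ∀ s : ℂ, (lineK w w' : Cn (b + 1) → Cn (b + k)) (pt z s) =
      ptK z (fun i => w i + s * (w' i - w i)) := by
    intro s
    unfold lineK
    congr 1
    · funext i
      simp [base, pt]
    · funext i
      simp [lc, pt]
  simp only [Function.comp_apply, e] at h1
  have e0 : (fun i => w i + 0 * (w' i - w i)) = w := by
    funext i
    ring
  have e1 : (fun i => w i + 1 * (w' i - w i)) = w' := by
    funext i
    ring
  rw [e0, e1] at h1
  exact h1

end Pool.Agent.Helper61.RK
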