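import Pool.Agent.Helper36.RK.GoalsP

/-! # RK packets TRP, BTP, BTR -/

set_option autoImplicit false

open Complex Metric Set Filter Topology MeasureTheory Matrix
open scoped ContDiff ComplexConjugate ComplexOrder Manifold

namespace Pool.Agent.Helper61.RK

open Pool.Agent.Helper95.Lin Pool.Agent.Helper10.SP Pool.Agent.Helper95.RK Pool.Agent.Helper36.RK

theorem toC_mul {m n l : Type*} [Fintype n] (A : Matrix m n ℝ) (B : Matrix n l ℝ) :
    toC (A * B) = toC A * toC B := by
  ext i j
  simp [toC, Matrix.mul_apply]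

theorem toC_transpose {m n : Type*} (A : Matrix m n ℝ) : toC A.transpose = (toC A).transpose := by
  ext i j
  simp [toC]

theorem cj_mul {m n l : Type*} [Fintype n] (A : Matrix m n ℂ) (B : Matrix n l ℂ) :
    cj (A * B) = cj A * cj B := by
  ext i j
  simp [cj, Matrix.mul_apply, map_sum]

theorem cj_transpose {m n : Type*} (A : Matrix m n ℂ) : cj A.transpose = (cj A).transpose := by
  ext i j
  simp [cj]

theorem cj_toC {m n : Type*} (A : Matrix m n ℝ) : cj (toC A) = toC A := by
  ext i j
  simp [toC, cj]

theorem det_cj {n : Type*} [Fintype n] [DecidableEq n] (A : Matrix n n ℂ) :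
    (cj A).det = conj A.det := by
  unfold cj
  exact (RingHom.map_det (starRingEnd ℂ) A).symm

theorem trp (hALGP : S_ALGP) : S_TRP := by
  intro k L L' Om Om' Q A hL hL' hQ hA
  obtain ⟨-, -, -, -, hp, hK1, hK2⟩ := hALGP L Om hL
  obtain ⟨hdOm', -, -, -, hp', hK1', hK2'⟩ := hALGP L' Om' hL'
  -- the form
  have hK : hiM L' Om' = cj A * hiM L Om * A.transpose := by
    have h1 : cj L' * toC Om' * L'.transpose = cj A * (cj L * toC Om * L.transpose) * A.transpose := by
      calc cj L' * toC Om' * L'.transpose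
          = cj L' * (toC Q * toC Om * (toC Q).transpose) * L'.transpose := by
            rw [← hQ, toC_mul, toC_mul, toC_transpose]
        _ = (cj L' * toC Q) * toC Om * ((toC Q).transpose * L'.transpose) := by
            simp only [Matrix.mul_assoc]
        _ = cj (L' * toC Q) * toC Om * (L' * toC Q).transpose := by
            rw [cj_mul, cj_toC, Matrix.transpose_mul]
        _ = cj (A * L) * toC Om * (A * L).transpose := by rw [hA]
        _ = _ := by
            rw [cj_mul, Matrix.transpose_mul]
            simp only [Matrix.mul_assoc]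
    unfold hiM
    rw [h1]
    simp only [Matrix.mul_smul, Matrix.smul_mul]
  have hdK' : (hiM L' Om').det ≠ 0 := by
    intro h0
    have h1 := congrArg Matrix.det hK1'
    rw [Matrix.det_mul, h0, zero_mul, Matrix.det_one] at h1
    exact zero_ne_one h1
  have hdA : A.det ≠ 0 := by
    intro h0
    apply hdK'
    rw [hK, Matrix.det_mul, Matrix.det_transpose, h0, mul_zero]
  have hdQ : Q.det ≠ 0 := by
    intro h0
    apply hdOm'
    rw [← hQ, Matrix.det_mul, Matrix.det_transpose, h0, mul_zero]
  have hinv : (hiM L Om)⁻¹ = A.transpose * (hiM L' Om')⁻¹ * cj A := by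
    apply Matrix.inv_eq_left_inv
    have hAu : IsUnit A.det := isUnit_iff_ne_zero.2 hdA
    have h1 : (hiM L' Om')⁻¹ * (cj A * hiM L Om * A.transpose) = 1 := by rw [← hK]; exact hK2'
    have h2 : A.transpose * ((hiM L' Om')⁻¹ * cj A * hiM L Om * A.transpose) = A.transpose := by
      rw [show (hiM L' Om')⁻¹ * cj A * hiM L Om * A.transpose =
        (hiM L' Om')⁻¹ * (cj A * hiM L Om * A.transpose) by simp only [Matrix.mul_assoc], h1,
        Matrix.mul_one]
    have hAt : IsUnit A.transpose.det := by rwa [Matrix.det_transpose]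
    have h3 : (A.transpose * (hiM L' Om')⁻¹ * cj A * hiM L Om) * A.transpose = 1 * A.transpose := by
      rw [Matrix.one_mul]
      calc _ = A.transpose * ((hiM L' Om')⁻¹ * cj A * hiM L Om * A.transpose) := by
            simp only [Matrix.mul_assoc]
        _ = A.transpose := h2
    have h4 := congrArg (fun X => X * (A.transpose)⁻¹) h3
    simp only [Matrix.mul_assoc] at h4
    rw [Matrix.mul_nonsing_inv _ hAt] at h4
    simpa [Matrix.mul_assoc] using h4
  refine ⟨hdA, hdQ, hK, hinv, fun s s' => ?_⟩
  unfold hs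
  rw [hinv]
  generalize (hiM L' Om')⁻¹ = H
  rw [cj_mul, cj_mul, cj_transpose, Matrix.transpose_mul, Matrix.transpose_mul,
    Matrix.transpose_transpose]
  rw [show A * s * A.transpose * H * (cj A * cj s' * (cj A).transpose) * H.transpose =
    A * (s * A.transpose * H * (cj A * cj s' * (cj A).transpose) * H.transpose) by
      simp only [Matrix.mul_assoc], Matrix.trace_mul_comm]
  simp only [Matrix.mul_assoc]

theorem hs_zero {k : ℕ} (H s : Matrix (Fin k) (Fin k) ℂ) : hs H 0 s = 0 := by
  unfold hs
  simp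

theorem btp (hALGP : S_ALGP) (hHSP : S_HSP) (hDIFP : S_DIFP) : S_BTP := by
  intro b k D lam Om hP z hz
  obtain ⟨hsym, hlin, -⟩ := hDIFP D lam Om hP
  obtain ⟨-, -, -, -, hpos, -, -⟩ := hALGP (Lm lam z) Om (hP.pol z hz)
  have hH : (Hb lam Om z).PosDef := hpos
  obtain ⟨h1, h2, h3, -⟩ := hHSP (Hb lam Om z) hH
  have hsum : ∀ u : Cn b, sV lam Om z u = ∑ j, u j • sV lam Om z (Pi.single j 1) := by
    have hzero : sV lam Om z 0 = 0 := by
      have := hlin z 0 0 0 0
      simpa using this
    have hadd : ∀ u v : Cn b, sV lam Om z (u + v) = sV lam Om z u + sV lam Om z v := by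
      intro u v
      have := hlin z 1 1 u v
      simpa using this
    have hsmul : ∀ (x : ℂ) (u : Cn b), sV lam Om z (x • u) = x • sV lam Om z u := by
      intro x u
      have := hlin z x 0 u 0
      simpa using this
    have hfin : ∀ (s : Finset (Fin b)) (f : Fin b → Cn b),
        sV lam Om z (∑ j ∈ s, f j) = ∑ j ∈ s, sV lam Om z (f j) := by
      classical
      intro s f
      induction s using Finset.induction_on with
      | empty => simp [hzero]
      | insert a s ha ih => rw [Finset.sum_insert ha, Finset.sum_insert ha, hadd, ih]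
    intro u
    conv_lhs => rw [pi_eq_sum_univ' u]
    rw [hfin]
    apply Finset.sum_congr rfl
    intro j _
    rw [← hsmul]
  have hfst : ∀ (s : Finset (Fin b)) (c : Fin b → ℂ) (f : Fin b → Matrix (Fin k) (Fin k) ℂ)
      (t : Matrix (Fin k) (Fin k) ℂ), hs (Hb lam Om z) (∑ j ∈ s, c j • f j) t =
        ∑ j ∈ s, c j * hs (Hb lam Om z) (f j) t := by
    classical
    intro s c f t
    induction s using Finset.induction_on with
    | empty => simp [hs_zero]
    | insert a s ha ih =>
      rw [Finset.sum_insert ha, Finset.sum_insert ha, ← ih]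
      have := (h3 (c a) 1 (f a) (∑ j ∈ s, c j • f j) t).1
      simpa using this
  have hsnd : ∀ (s : Finset (Fin b)) (c : Fin b → ℂ) (f : Fin b → Matrix (Fin k) (Fin k) ℂ)
      (t : Matrix (Fin k) (Fin k) ℂ), hs (Hb lam Om z) t (∑ j ∈ s, c j • f j) =
        ∑ j ∈ s, conj (c j) * hs (Hb lam Om z) t (f j) := by
    classical
    intro s c f t
    induction s using Finset.induction_on with
    | empty =>
      have := (h3 0 0 0 0 t).2
      simpa using this
    | insert a s ha ih =>
      rw [Finset.sum_insert ha, Finset.sum_insert ha, ← ih]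
      have := (h3 (c a) 1 (f a) (∑ j ∈ s, c j • f j) t).2
      simpa using this
  refine ⟨fun u v => ?_, fun u v => ?_, fun v => ?_⟩
  · unfold bt
    rw [hsum u, hsum v, hfst]
    apply Finset.sum_congr rfl
    intro j _
    rw [hsnd, Finset.mul_sum]
    apply Finset.sum_congr rfl
    intro l _
    ring
  · exact h1 _ _ (hsym z hz u) (hsym z hz v)
  · obtain ⟨g1, g2, g3⟩ := h2 (sV lam Om z v) (hsym z hz v)
    refine ⟨g1, g2, g3, fun h0 => ?_⟩
    unfold bt
    rw [h0]
    exact hs_zero _ _

theorem btr (hALGP : S_ALGP) (hTRP : S_TRP) : S_BTR := by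
  intro b k D D' lam lam' Om Om' Q hP hP' hQ g A z hz hgz hg hA hev
  have hAL : A z * Lm lam z = Lm lam' (g z) * toC Q := hev.self_of_nhds
  obtain ⟨hdA, -, hK, hinv, htr⟩ := hTRP (Lm lam z) (Lm lam' (g z)) Om Om' Q (A z)
    (hP.pol z hz) (hP'.pol (g z) hgz) hQ hAL
  have hlam : ∀ j, DifferentiableAt ℂ (lam j) z := fun j =>
    (hP.holo j).differentiableAt (hP.isOpen.mem_nhds hz)
  have hlam' : ∀ j, DifferentiableAt ℂ (lam' j) (g z) := fun j =>
    (hP'.holo j).differentiableAt (hP'.isOpen.mem_nhds hgz)
  have hlamp : ∀ j p, HasFDerivAt (fun y => lam j y p)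
      ((ContinuousLinearMap.proj p).comp (fderiv ℂ (lam j) z)) z := fun j p =>
    ((ContinuousLinearMap.proj (R := ℂ) (φ := fun _ : Fin k => ℂ) p).hasFDerivAt).comp z
      (hlam j).hasFDerivAt
  have hlamp' : ∀ j p, HasFDerivAt (fun y => lam' j (g y) p)
      ((ContinuousLinearMap.proj p).comp ((fderiv ℂ (lam' j) (g z)).comp (fderiv ℂ g z))) z :=
    fun j p => ((ContinuousLinearMap.proj (R := ℂ) (φ := fun _ : Fin k => ℂ) p).hasFDerivAt).comp z
      ((hlam' j).hasFDerivAt.comp z hg.hasFDerivAt)
  -- the derivative of `A`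
  have hder : ∀ v, ∃ dA : Matrix (Fin k) (Fin k) ℂ, dA * Lm lam z + A z * dL lam z v =
      dL lam' (g z) (fderiv ℂ g z v) * toC Q := by
    intro v
    refine ⟨Matrix.of fun p q => fderiv ℂ (fun y => A y p q) z v, ?_⟩
    ext p j
    have e1 : HasFDerivAt (fun y => (A y * Lm lam y) p j)
        (∑ i, (A z p i • ((ContinuousLinearMap.proj i).comp (fderiv ℂ (lam j) z) :
          Cn b →L[ℂ] ℂ) + lam j z i • fderiv ℂ (fun y => A y p i) z)) z := by
      have : (fun y => (A y * Lm lam y) p j) = fun y => ∑ i, A y p i * lam j y i := by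
        funext y
        rw [Matrix.mul_apply]
        rfl
      rw [this]
      apply HasFDerivAt.fun_sum
      intro i _
      exact (hA p i).hasFDerivAt.mul (hlamp j i)
    have e2 : HasFDerivAt (fun y => (Lm lam' (g y) * toC Q) p j)
        (∑ i, ((Q i j : ℝ) : ℂ) • (((ContinuousLinearMap.proj p).comp
          ((fderiv ℂ (lam' i) (g z)).comp (fderiv ℂ g z))) : Cn b →L[ℂ] ℂ)) z := by
      have : (fun y => (Lm lam' (g y) * toC Q) p j) =
          fun y => ∑ i, lam' i (g y) p * ((Q i j : ℝ) : ℂ) := by
        funext y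
        rw [Matrix.mul_apply]
        rfl
      rw [this]
      apply HasFDerivAt.fun_sum
      intro i _
      exact (hlamp' i p).mul_const _
    have e3 := e1.congr_of_eventuallyEq (f₁ := fun y => (Lm lam' (g y) * toC Q) p j)
      (hev.mono fun y hy => (congrFun (congrFun hy p) j).symm)
    have e4 := DFunLike.congr_fun (e2.unique e3) v
    simp only [_root_.sum_apply, _root_.add_apply,
      _root_.smul_apply, ContinuousLinearMap.comp_apply,
      ContinuousLinearMap.proj_apply, smul_eq_mul] at e4
    rw [Matrix.add_apply, Matrix.mul_apply, Matrix.mul_apply, Matrix.mul_apply,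
      ← Finset.sum_add_distrib]
    simp only [Matrix.of_apply, Lm, dL, toC, Matrix.map_apply]
    rw [show (∑ x, fderiv ℂ (lam' x) (g z) (fderiv ℂ g z v) p * ((Q x j : ℝ) : ℂ)) =
      ∑ x, ((Q x j : ℝ) : ℂ) * fderiv ℂ (lam' x) (g z) (fderiv ℂ g z v) p from
        Finset.sum_congr rfl fun x _ => mul_comm _ _, e4]
    apply Finset.sum_congr rfl
    intro x _
    ring
  have hsV : ∀ v, sV lam' Om' (g z) (fderiv ℂ g z v) = A z * sV lam Om z v * (A z).transpose := by
    intro v
    obtain ⟨dA, hdA⟩ := hder v
    unfold sV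
    have hiso := (hP.pol z hz).iso
    calc dL lam' (g z) (fderiv ℂ g z v) * toC Om' * (Lm lam' (g z)).transpose
        = (dL lam' (g z) (fderiv ℂ g z v) * toC Q) * toC Om *
            (Lm lam' (g z) * toC Q).transpose := by
          rw [← hQ, toC_mul, toC_mul, toC_transpose, Matrix.transpose_mul]
          simp only [Matrix.mul_assoc]
      _ = (dA * Lm lam z + A z * dL lam z v) * toC Om * (A z * Lm lam z).transpose := by
          rw [← hdA, ← hAL]
      _ = dA * (Lm lam z * toC Om * (Lm lam z).transpose) * (A z).transpose +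
          A z * (dL lam z v * toC Om * (Lm lam z).transpose) * (A z).transpose := by
          rw [Matrix.transpose_mul, Matrix.add_mul, Matrix.add_mul]
          simp only [Matrix.mul_assoc]
      _ = _ := by
          rw [hiso, Matrix.mul_zero, Matrix.zero_mul, zero_add]
  refine ⟨hdA, hK, hsV, fun u v => ?_⟩
  unfold bt
  rw [hsV u, hsV v]
  exact htr _ _

end Pool.Agent.Helper61.RK
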