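import Pool.Agent.Helper40.RK.GoalsE
import Pool.Agent.Helper95.RK.Basics
import Pool.Agent.Helper27.Lin.Montel
import Pool.Agent.Helper19.Lin.IDT

set_option autoImplicit false

/-!
# RK, packets NETK and NCVK: Montel's theorem for `BigK` elements, finite nets, near the identity
-/

open Complex Metric Set Filter Topology MeasureTheory Matrix
open scoped ContDiff ComplexConjugate

namespace Pool.Agent.Helper61.RK

open Pool.Agent.Helper95.Lin Pool.Agent.Helper10.SP Pool.Agent.Helper95.RK Pool.Agent.Helper36.RK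
open Pool.Agent.Helper40.RK Pool.Agent.Helper16.Abund

/-- The entries of a matrix. -/
noncomputable def ent {k : ℕ} (A : Matrix (Fin k) (Fin k) ℂ) : Cn (k * k) :=
  fun p => A (finProdFinEquiv.symm p).1 (finProdFinEquiv.symm p).2

theorem ent_apply {k : ℕ} (A : Matrix (Fin k) (Fin k) ℂ) (i j : Fin k) :
    ent A (finProdFinEquiv (i, j)) = A i j := by
  unfold ent
  rw [Equiv.symm_apply_apply]

theorem ent_sub {k : ℕ} (A B : Matrix (Fin k) (Fin k) ℂ) : ent (A - B) = ent A - ent B := rfl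

theorem norm_ent_le {k : ℕ} {A : Matrix (Fin k) (Fin k) ℂ} {C : ℝ} (hC : 0 ≤ C) (h : MB A C) :
    ‖ent A‖ ≤ C :=
  (pi_norm_le_iff_of_nonneg hC).2 fun _ => h.entry _ _

theorem MB_of_ent {k : ℕ} {A : Matrix (Fin k) (Fin k) ℂ} {C : ℝ} (h : ‖ent A‖ ≤ C) :
    MB A (k * C) := by
  refine MB.of_entry fun i j => ?_
  rw [← ent_apply A i j]
  exact (norm_le_pi_norm _ _).trans h

theorem ent_diff {k b : ℕ} {A : Cn b → Matrix (Fin k) (Fin k) ℂ} {U : Set (Cn b)}
    (h : ∀ i j, DifferentiableOn ℂ (fun z => A z i j) U) :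
    DifferentiableOn ℂ (fun z => ent (A z)) U :=
  differentiableOn_pi.2 fun _ => h _ _

section
variable {b k N : ℕ} {c : Fin N → Cn b} {R : ℝ} {P : Set (Cn b) → TriK b k → Prop}
  {Φ : Cn b → ℝ} {Hf : Cn b → Matrix (Fin k) (Fin k) ℂ} {C : ℝ}

/-- Uniform bounds for `BigK` maps. -/
theorem bigK_bdd (h : AFolK c R P Φ Hf C) :
    ∃ B : ℝ, 0 ≤ B ∧ ∀ i t, BigK c P i t → ∀ z ∈ ball (c i) 4, ‖t.g z‖ ≤ B := by
  obtain ⟨B, hB⟩ := (Bornology.isBounded_iUnion.2
    (fun j : Fin N => (isBounded_ball : Bornology.IsBounded (ball (c j) R)))).exists_norm_le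
  exact ⟨max B 0, le_max_right _ _, fun i t ht z hz =>
    (hB _ ((h.holo _ _ ht.1).2.2.2 z hz).1).trans (le_max_left _ _)⟩

/-- Montel's theorem for the base maps and the matrices of `BigK` elements. -/
theorem montelK (h : AFolK c R P Φ Hf C) (i : Fin N) (t : ℕ → TriK b k)
    (ht : ∀ n, BigK c P i (t n)) :
    ∃ φ : ℕ → ℕ, StrictMono φ ∧ ∃ (F : Cn b → Cn b) (G : Cn b → Matrix (Fin k) (Fin k) ℂ),
      DifferentiableOn ℂ F (ball (c i) 4) ∧
      (∀ p q, DifferentiableOn ℂ (fun z => G z p q) (ball (c i) 4)) ∧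
      ∀ K ⊆ ball (c i) 4, IsCompact K → ∀ ε > 0, ∀ᶠ n in atTop, ∀ z ∈ K,
        ‖(t (φ n)).g z - F z‖ ≤ ε ∧ MB ((t (φ n)).A z - G z) ε := by
  obtain ⟨B, hB0, hB⟩ := bigK_bdd h
  have hC0 : 0 ≤ C := by linarith [h.Cge]
  have hholo := fun n => (h.holo _ _ (ht n).1).2.2.1
  obtain ⟨φ, hφ, F, hF, hlim⟩ := _root_.Helper27.LinMontel.montel (ball (c i) 4) isOpen_ball
    (fun n z => ptK ((t n).g z) (ent ((t n).A z)))
    (fun n => (ptL b (k * k)).differentiable.comp_differentiableOn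
      ((hholo n).1.prodMk (ent_diff (hholo n).2.1)))
    (fun K hK _ => ⟨max B C, fun n z hz => by
      rw [norm_ptK]
      exact max_le_max (hB i _ (ht n) z (hK hz)) (norm_ent_le hC0 (h.abd i _ (ht n) z (hK hz)).1)⟩)
  refine ⟨φ, hφ, fun z => base (F z), fun z => Matrix.of fun p q =>
    fib (F z) (finProdFinEquiv (p, q)), ?_, ?_, ?_⟩
  · exact (bsL b (k * k)).differentiable.comp_differentiableOn hF
  · intro p q
    exact (differentiableOn_pi.1 ((fbL b (k * k)).differentiable.comp_differentiableOn hF)) _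
  · intro K hK hKc ε hε
    have hk : (0 : ℝ) < (k : ℝ) + 1 := by positivity
    filter_upwards [hlim K hK hKc (ε / (k + 1)) (by positivity)] with n hn z hz
    have h1 := hn z hz
    have h2 : ‖(t (φ n)).g z - base (F z)‖ ≤ ε / (k + 1) := by
      refine le_trans ?_ ((norm_base_le _).trans h1)
      rw [base_sub, base_ptK]
    have h3 : ‖ent ((t (φ n)).A z) - fib (F z)‖ ≤ ε / (k + 1) := by
      refine le_trans ?_ ((norm_fib_le _).trans h1)
      rw [fib_sub, fib_ptK]
    have h4 : ent (Matrix.of fun p q => fib (F z) (finProdFinEquiv (p, q))) = fib (F z) := by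
      funext r
      unfold ent
      rw [Matrix.of_apply, Prod.mk.eta, Equiv.apply_symm_apply]
    constructor
    · refine h2.trans (div_le_self hε.le ?_)
      linarith [Nat.cast_nonneg (α := ℝ) k]
    · rw [← h4, ← ent_sub] at h3
      refine (MB_of_ent h3).mono ?_
      rw [mul_div_assoc', div_le_iff₀ hk]
      nlinarith [Nat.cast_nonneg (α := ℝ) k]

theorem MB.neg {A : Matrix (Fin k) (Fin k) ℂ} {D : ℝ} (h : MB A D) : MB (-A) D := by
  intro v
  rw [Matrix.neg_mulVec, norm_neg]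
  exact h v

theorem MB.sub {A A' : Matrix (Fin k) (Fin k) ℂ} {D D' : ℝ} (h : MB A D) (h' : MB A' D') :
    MB (A - A') (D + D') := by
  rw [sub_eq_add_neg]
  exact h.add (MB.neg h')

end

theorem netk : S_NETK := by
  intro b k N c R P Φ Hf C hA i A hAB η hη
  classical
  by_contra hcon
  push Not at hcon
  have hstep : ∀ S : Finset (TriK b k), (∀ x ∈ S, x ∈ A) → ∃ y, y ∈ A ∧ ∀ x ∈ S,
      ¬ ∀ z ∈ ball (c i) 3, ‖y.g z - x.g z‖ ≤ η ∧ MB (y.A z - x.A z) η := by
    intro S hS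
    obtain ⟨t, ht, hk⟩ := hcon S.card (fun k => (S.equivFin.symm k : TriK b _))
      (fun k => hS _ (S.equivFin.symm k).2)
    refine ⟨t, ht, fun x hx hclose => ?_⟩
    obtain ⟨z, hz, h⟩ := hk (S.equivFin ⟨x, hx⟩)
    have := hclose z hz
    simp only [Equiv.symm_apply_apply] at h
    exact h this.1 this.2
  obtain ⟨f, hfA, hfr⟩ := exists_seq_of_forall_finset_exists (fun t => t ∈ A)
    (fun x y => ¬ ∀ z ∈ ball (c i) 3, ‖y.g z - x.g z‖ ≤ η ∧ MB (y.A z - x.A z) η) hstep
  obtain ⟨φ, hφ, F, G, -, -, hlim⟩ := montelK hA i f (fun n => hAB _ (hfA n))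
  have hsub : closedBall (c i) 3 ⊆ ball (c i) 4 := closedBall_subset_ball (by norm_num)
  obtain ⟨K, hK⟩ := eventually_atTop.1 (hlim (closedBall (c i) 3) hsub (isCompact_closedBall _ _)
    (η / 2) (by positivity))
  have hlt : φ K < φ (K + 1) := hφ (Nat.lt_succ_self K)
  apply hfr _ _ hlt
  intro z hz
  have hz' : z ∈ closedBall (c i) 3 := ball_subset_closedBall hz
  obtain ⟨a1, a2⟩ := hK K le_rfl z hz'
  obtain ⟨b1, b2⟩ := hK (K + 1) (Nat.le_succ K) z hz'
  constructor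
  · calc ‖(f (φ (K + 1))).g z - (f (φ K)).g z‖
        = ‖((f (φ (K + 1))).g z - F z) - ((f (φ K)).g z - F z)‖ := by
          rw [sub_sub_sub_cancel_right]
      _ ≤ ‖(f (φ (K + 1))).g z - F z‖ + ‖(f (φ K)).g z - F z‖ := norm_sub_le _ _
      _ ≤ η / 2 + η / 2 := add_le_add b1 a1
      _ = η := by ring
  · have := MB.sub b2 a2
    rw [sub_sub_sub_cancel_right, add_halves] at this
    exact this

theorem ncvk : S_NCVK := by
  intro b k N c R P Φ Hf C h i x ρ₀ hρ₀ hxi ρ hρ ε hε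
  by_contra hcon
  push Not at hcon
  have hseq : ∀ n : ℕ, ∃ t, BigK c P i t ∧
      (∀ z ∈ ball x ρ₀, ‖t.g z - z‖ ≤ 1 / ((n : ℝ) + 1) ∧ MB (t.A z - 1) (1 / ((n : ℝ) + 1))) ∧
      ∃ z ∈ ball (c i) ρ, (‖t.g z - z‖ ≤ ε → ¬ MB (t.A z - 1) ε) := by
    intro n
    obtain ⟨t, h1, h2, h3⟩ := hcon (1 / ((n : ℝ) + 1)) (by positivity)
    exact ⟨t, h1, h2, h3⟩
  choose t hB hnear z hz hfar using hseq
  obtain ⟨φ, hφ, F, G, hF, hG, hlim⟩ := montelK h i t hB
  have hone : Tendsto (fun n => 1 / ((φ n : ℝ) + 1)) atTop (𝓝 0) :=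
    tendsto_one_div_add_atTop_nhds_zero_nat.comp hφ.tendsto_atTop
  have hx4 : x ∈ ball (c i) 4 := hxi (mem_ball_self hρ₀)
  -- the limit is the identity near x
  have hloc : ∀ z ∈ ball x ρ₀, F z = z ∧ ∀ p q, G z p q = (1 : Matrix (Fin k) (Fin k) ℂ) p q := by
    intro z hz
    have hz4 := hxi hz
    have key : ∀ δ > 0, ‖F z - z‖ ≤ δ ∧ ∀ p q, ‖G z p q - (1 : Matrix (Fin k) (Fin k) ℂ) p q‖ ≤ δ := by
      intro δ hδ
      have h1 := hlim {z} (singleton_subset_iff.2 hz4) isCompact_singleton (δ / 2) (half_pos hδ)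
      have h2 := hone.eventually (gt_mem_nhds (half_pos hδ))
      obtain ⟨n, hn1, hn2⟩ := (h1.and h2).exists
      obtain ⟨a1, a2⟩ := hn1 z rfl
      obtain ⟨b1, b2⟩ := hnear (φ n) z hz
      constructor
      · calc ‖F z - z‖ = ‖((t (φ n)).g z - z) - ((t (φ n)).g z - F z)‖ := by
              rw [sub_sub_sub_cancel_left]
          _ ≤ ‖(t (φ n)).g z - z‖ + ‖(t (φ n)).g z - F z‖ := norm_sub_le _ _
          _ ≤ δ / 2 + δ / 2 := add_le_add (b1.trans hn2.le) a1
          _ = δ := by ring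
      · intro p q
        have e1 := a2.entry p q
        have e2 := b2.entry p q
        rw [Matrix.sub_apply] at e1 e2
        calc ‖G z p q - (1 : Matrix (Fin k) (Fin k) ℂ) p q‖
            = ‖((t (φ n)).A z p q - (1 : Matrix (Fin k) (Fin k) ℂ) p q) -
              ((t (φ n)).A z p q - G z p q)‖ := by rw [sub_sub_sub_cancel_left]
          _ ≤ ‖(t (φ n)).A z p q - (1 : Matrix (Fin k) (Fin k) ℂ) p q‖ +
              ‖(t (φ n)).A z p q - G z p q‖ := norm_sub_le _ _
          _ ≤ δ / 2 + δ / 2 := add_le_add (e2.trans hn2.le) e1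
          _ = δ := by ring
    refine ⟨?_, fun p q => ?_⟩
    · rw [← sub_eq_zero, ← norm_le_zero_iff]
      exact le_of_forall_pos_le_add fun δ hδ => by
        rw [zero_add]
        exact (key δ hδ).1
    · rw [← sub_eq_zero, ← norm_le_zero_iff]
      exact le_of_forall_pos_le_add fun δ hδ => by
        rw [zero_add]
        exact (key δ hδ).2 p q
  have hnb : ball x ρ₀ ∈ 𝓝 x := ball_mem_nhds x hρ₀
  have hFall : ∀ z ∈ ball (c i) 4, F z = z := by
    have := _root_.Pool.Agent.Helper19.Lin.idt (ball (c i) 4) isOpen_ball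
      (convex_ball _ _).isPreconnected (fun z => F z - z) (hF.sub differentiableOn_id) x hx4 (by
        filter_upwards [hnb] with z hz
        rw [(hloc z hz).1, sub_self])
    intro z hz
    exact sub_eq_zero.1 (this z hz)
  have hGall : ∀ z ∈ ball (c i) 4, G z = 1 := by
    intro z hz
    ext p q
    have := _root_.Pool.Agent.Helper19.Lin.idt (m := 1) (ball (c i) 4) isOpen_ball
      (convex_ball _ _).isPreconnected
      (fun z _ => G z p q - (1 : Matrix (Fin k) (Fin k) ℂ) p q)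
      (differentiableOn_pi.2 fun _ => (hG p q).sub (differentiableOn_const _)) x hx4 (by
        filter_upwards [hnb] with z hz
        funext _
        rw [(hloc z hz).2 p q, sub_self]
        rfl)
    exact sub_eq_zero.1 (congrFun (this z hz) 0)
  obtain ⟨n, hn⟩ := (hlim (closedBall (c i) ρ)
    (closedBall_subset_ball hρ) (isCompact_closedBall _ _) ε hε).exists
  have hz4 : z (φ n) ∈ ball (c i) 4 := ball_subset_ball hρ.le (hz (φ n))
  obtain ⟨h1, h2⟩ := hn (z (φ n)) (ball_subset_closedBall (hz (φ n)))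
  rw [hFall _ hz4] at h1
  rw [hGall _ hz4] at h2
  exact hfar (φ n) h1 h2

end Pool.Agent.Helper61.RK
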